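/-
The bounding pairs modulo the central element `σ`: they form an image of the lattice, and the
central elements of the image of the Torelli group are powers of `σ`.
-/
import Pool.Agent.H.MP_59b15d_al.h73x.Tr

set_option autoImplicit false

namespace Pool.Agent.H.MP_59b15d_al.H40X

open Pool.Agent.H.MP_59b15d_al.SP
open Pool.Agent.H.MP_59b15d_al.H93C
open Pool.Agent.H.MP_59b15d_al.H73X
open Pool.Agent.H.MP_59b15d_al.PC (Prim)

variable {m : ℕ} {M0 Q : Type*} [Group M0] [Group Q]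

/-- The bounding pair map. -/
def BB (T : U m → Q) (u : U m) : Q := T (u + (0, 2)) * (T u)⁻¹

/-- The facts on bounding pairs which are used. -/
structure Sg (act : M0 →* (U m ≃ₗ[ℤ] U m)) (T : U m → Q) (l : Fin m) (σ : Q) : Prop where
  cen : ∀ y : Q, Commute σ y
  step : ∀ u ∈ Om act l, BB T (u + (0, 2)) = BB T u * σ
  add : ∀ i j : Fin m, (j : ℕ) = i + 1 → ∃ k : ℤ,
    BB T (e i + e j, 0) = BB T (e i, 0) * BB T (e j, 0) * σ ^ k

variable {q : M0 →* Q} {act : M0 →* (U m ≃ₗ[ℤ] U m)} {T : U m → Q} {s : Q} {M : ℕ}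
  {i j l : Fin m} {σ : Q}

lemma add_zw (u : U m) (a b : ℤ) : u + (0, a) + (0, b) = u + (0, a + b) := by
  apply Prod.ext
  · change u.1 + 0 + 0 = u.1 + 0
    rw [add_zero]
  · change u.2 + a + b = u.2 + (a + b)
    ring

lemma add_z0 (u : U m) : u + (0, 0) = u := add_zero u

lemma add_fst (u : U m) (a : ℤ) : (u + (0, a) : U m).1 = u.1 := add_zero u.1

section

variable (D : Loc q act T s M i j l) (E : Sg act T l σ)

include D E

/-- The bounding pairs over a class. -/
lemma BB_shift {u : U m} (hu : u ∈ Om act l) (k : ℤ) : BB T (u + (0, 2 * k)) = BB T u * σ ^ k := by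
  induction k using Int.induction_on with
  | zero => rw [mul_zero, add_z0, zpow_zero, mul_one]
  | succ k ih =>
    have h1 := E.step _ (D.Om_add_even D.two hu k)
    rw [add_zw, ih, mul_assoc, ← zpow_add_one] at h1
    have h2 : 2 * ((k : ℤ) + 1) = 2 * k + 2 := by ring
    rw [h2]
    exact h1
  | pred k ih =>
    have h1 := E.step _ (D.Om_add_even D.two hu (-(k : ℤ) - 1))
    rw [add_zw] at h1
    have h2 : 2 * (-(k : ℤ) - 1) + 2 = 2 * -(k : ℤ) := by ring
    rw [h2, ih] at h1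
    rw [zpow_sub_one, ← mul_assoc, h1, mul_inv_cancel_right]

/-- A shift conjugates the bounding pairs. -/
lemma BB_conj {g : M0} {v : V m} (hg : ∀ x : U m, act g x = x + (0, 2 * om v x.1)) {u : U m}
    (hu : u ∈ Om act l) : q g * BB T u * (q g)⁻¹ = BB T u * σ ^ om v u.1 := by
  have h1 := D.eqv g u hu
  have h2 := D.eqv g _ (D.Om_add_two D.two hu)
  rw [hg] at h1 h2
  rw [add_fst, add_zw, add_comm (2 : ℤ), ← add_zw] at h2
  rw [← BB_shift D E hu, BB, BB, ← h1, ← h2]
  group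

end

section quo

variable (D : Loc q act T s M i j l) (E : Sg act T l σ)

include E in
lemma zn : (Subgroup.zpowers σ).Normal := by
  refine ⟨?_⟩
  rintro x ⟨k, rfl⟩ y
  have h1 := ((E.cen y).zpow_left k).eq
  change y * σ ^ k * y⁻¹ ∈ _
  rw [← h1, mul_inv_cancel_right]
  exact ⟨k, rfl⟩

variable {P : Type*} [Group P] (p : Q →* P) (hp : ∀ x, p x = 1 ↔ ∃ k : ℤ, x = σ ^ k)

include hp in
lemma p_sigma (k : ℤ) : p (σ ^ k) = 1 := (hp _).2 ⟨k, rfl⟩

include D E hp in
lemma pB_shift {u u' : U m} (hu : u ∈ Om act l) (hu' : u' ∈ Om act l) (h1 : u.1 = u'.1) :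
    p (BB T u) = p (BB T u') := by
  have h2 := D.Om_par hu
  have h3 := D.Om_par hu'
  rw [h1] at h2
  obtain ⟨k, hk⟩ := (by
    generalize co u'.1 u'.1 = c0 at h2 h3
    omega : (2 : ℤ) ∣ u.2 - u'.2)
  have h4 : u = u' + (0, 2 * k) := by
    apply Prod.ext
    · rw [add_fst, h1]
    · change u.2 = u'.2 + 2 * k
      omega
  rw [h4, BB_shift D E hu', map_mul, p_sigma p hp, mul_one]

include D E hp in
lemma pT_shift {u : U m} (hu : u ∈ Om act l) (k : ℤ) :
    p (T (u + (0, 2 * k))) = p (BB T u) ^ k * p (T u) := by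
  have key : ∀ k : ℤ, p (T (u + (0, 2 * (k + 1)))) = p (BB T u) * p (T (u + (0, 2 * k))) := by
    intro k
    have h1 := BB_shift D E hu k
    have h2 : BB T (u + (0, 2 * k)) = T (u + (0, 2 * (k + 1))) * (T (u + (0, 2 * k)))⁻¹ := by
      rw [BB, add_zw]
      congr 3
      ring
    rw [h2] at h1
    have h3 : T (u + (0, 2 * (k + 1))) = BB T u * σ ^ k * T (u + (0, 2 * k)) := by
      rw [← h1]; group
    rw [h3, map_mul, map_mul, p_sigma p hp, mul_one]
  induction k using Int.induction_on with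
  | zero => rw [mul_zero, add_z0, zpow_zero, one_mul]
  | succ k ih => rw [key, ih, ← mul_assoc, ← zpow_one_add, add_comm]
  | pred k ih =>
    have h1 := key (-(k : ℤ) - 1)
    rw [sub_add_cancel, ih] at h1
    have h2 : p (T (u + (0, 2 * (-(k : ℤ) - 1)))) = (p (BB T u))⁻¹ *
        (p (BB T u) ^ (-(k : ℤ)) * p (T u)) := by
      rw [h1]; group
    rw [h2, ← mul_assoc, ← zpow_neg_one, ← zpow_add]
    congr 2
    ring

include D E hp in
/-- The image of a bounding pair under a twist. -/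
lemma pB_twist {u x : U m} (hu : u ∈ Om act l) (hx : x ∈ Om act l) {u' : U m}
    (hu' : u' ∈ Om act l) (h1 : u'.1 = u.1 + om x.1 u.1 • x.1) :
    p (BB T u') = p (BB T x) ^ om x.1 u.1 * p (BB T u) := by
  obtain ⟨g, g1, g2⟩ := D.tact x hx
  obtain ⟨k, k1, k2⟩ := D.BB_act D.two hu
  have h2 : act g u ∈ Om act l := Om_act hu g
  have h3 : (act g u).1 = u'.1 := by
    rw [g2, h1]
    change u.1 + om x.1 u.1 • (x.1 - 0) = _
    rw [sub_zero]
  rw [← pB_shift D E p hp h2 hu' h3]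
  have h4 : BB T (act g u) = T x * BB T u * (T x)⁻¹ := by
    have h5 := D.eqv g u hu
    have h6 := D.eqv g _ (D.Om_add_two D.two hu)
    rw [g1] at h5 h6
    rw [D.act_add] at h6
    rw [BB, BB, ← h5, ← h6]
    group
  have h7 := D.eqv k x hx
  rw [k1, k2] at h7
  change BB T u * T x * (BB T u)⁻¹ = _ at h7
  have h8 := congrArg p h7
  rw [map_mul, map_mul, map_inv, pT_shift D E p hp hx] at h8
  have h9 : om u.1 x.1 = -om x.1 u.1 := om_swap _ _
  rw [h4, map_mul, map_mul, map_inv]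
  have h10 : p (T x) * (p (BB T u))⁻¹ * (p (T x))⁻¹ =
      (p (BB T u))⁻¹ * p (BB T x) ^ om u.1 x.1 := by
    have h11 : p (T x) * (p (BB T u))⁻¹ * (p (T x))⁻¹ =
        (p (BB T u))⁻¹ * (p (BB T u) * p (T x) * (p (BB T u))⁻¹) * (p (T x))⁻¹ := by group
    rw [h11, h8]
    group
  have h12 : p (T x) * p (BB T u) * (p (T x))⁻¹ =
      (p (T x) * (p (BB T u))⁻¹ * (p (T x))⁻¹)⁻¹ := by group
  rw [h12, h10, h9]
  group

include D E hp in
/-- The bounding pairs commute modulo `σ`. -/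
lemma pB_comm {u x : U m} (hu : u ∈ Om act l) (hx : x ∈ Om act l) :
    Commute (p (BB T u)) (p (BB T x)) := by
  obtain ⟨k, k1, k2⟩ := D.BB_act D.two hu
  have h1 := BB_conj D E k2 hx
  rw [k1] at h1
  change BB T u * BB T x * (BB T u)⁻¹ = _ at h1
  have h2 := congrArg p h1
  rw [map_mul, map_mul, map_inv, map_mul, p_sigma p hp, mul_one] at h2
  exact mul_inv_eq_iff_eq_mul.1 h2

end quo

end Pool.Agent.H.MP_59b15d_al.H40X
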