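/-
An additive map from the lattice to a commutative part of a group.
-/
import Pool.Agent.H.MP_59b15d_al.sp.Base

set_option autoImplicit false

namespace Pool.Agent.H.MP_59b15d_al.H40X

open Pool.Agent.H.MP_59b15d_al.SP

variable {m : ℕ} {P : Type*} [Group P]

lemma closure_comm {S : Set P} (hS : ∀ x ∈ S, ∀ y ∈ S, Commute x y) {x y : P}
    (hx : x ∈ Subgroup.closure S) (hy : y ∈ Subgroup.closure S) : Commute x y := by
  have h1 : ∀ x ∈ Subgroup.closure S, ∀ y ∈ S, Commute x y := by
    intro x hx y hy
    refine Subgroup.closure_induction (p := fun x _ => Commute x y) ?_ ?_ ?_ ?_ hx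
    · exact fun x hx => hS x hx y hy
    · exact Commute.one_left y
    · exact fun _ _ _ _ h1 h2 => h1.mul_left h2
    · exact fun _ _ h1 => h1.inv_left
  refine Subgroup.closure_induction (p := fun y _ => Commute x y) ?_ ?_ ?_ ?_ hy
  · exact fun y hy => h1 x hx y hy
  · exact Commute.one_right x
  · exact fun _ _ _ _ h1 h2 => h1.mul_right h2
  · exact fun _ _ h1 => h1.inv_right

/-- The additive map with given values at the basis. -/
theorem exists_beta {S : Set P} (hS : ∀ x ∈ S, ∀ y ∈ S, Commute x y) (bk ck : Fin m → P)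
    (hb : ∀ k, bk k ∈ S) (hc : ∀ k, ck k ∈ S) : ∃ β : V m → P,
      (∀ v w, β (v + w) = β v * β w) ∧ (∀ k, β (e k) = bk k) ∧ (∀ k, β (f k) = ck k) ∧
      ∀ c : ℤ, (∀ k, bk k ^ c = 1) → (∀ k, ck k ^ c = 1) → ∀ v, β (c • v) = 1 := by
  letI : CommGroup (Subgroup.closure S) :=
    { (inferInstance : Group (Subgroup.closure S)) with
      mul_comm := fun x y => Subtype.ext (closure_comm hS x.2 y.2).eq }
  let B : Fin m → Subgroup.closure S := fun k => ⟨bk k, Subgroup.subset_closure (hb k)⟩
  let C : Fin m → Subgroup.closure S := fun k => ⟨ck k, Subgroup.subset_closure (hc k)⟩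
  let F : V m → Subgroup.closure S := fun v => ∏ k, (B k ^ (v k).1 * C k ^ (v k).2)
  refine ⟨fun v => ((F v : Subgroup.closure S) : P), ?_, ?_, ?_, ?_⟩
  · intro v w
    have h1 : F (v + w) = F v * F w := by
      simp only [F]
      rw [← Finset.prod_mul_distrib]
      refine Finset.prod_congr rfl fun k _ => ?_
      rw [Pi.add_apply, Prod.fst_add, Prod.snd_add, zpow_add, zpow_add]
      exact mul_mul_mul_comm _ _ _ _
    change ((F (v + w) : Subgroup.closure S) : P) = _
    rw [h1]
    rfl
  · intro k
    have h1 : F (e k) = B k := by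
      simp only [F]
      rw [Finset.prod_eq_single k]
      · rw [e_self]
        change B k ^ (1 : ℤ) * C k ^ (0 : ℤ) = B k
        rw [zpow_one, zpow_zero, mul_one]
      · intro x _ hx
        rw [e_ne hx]
        change B x ^ (0 : ℤ) * C x ^ (0 : ℤ) = 1
        rw [zpow_zero, zpow_zero, mul_one]
      · intro h
        exact absurd (Finset.mem_univ k) h
    change ((F (e k) : Subgroup.closure S) : P) = _
    rw [h1]
  · intro k
    have h1 : F (f k) = C k := by
      simp only [F]
      rw [Finset.prod_eq_single k]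
      · rw [f_self]
        change B k ^ (0 : ℤ) * C k ^ (1 : ℤ) = C k
        rw [zpow_one, zpow_zero, one_mul]
      · intro x _ hx
        rw [f_ne hx]
        change B x ^ (0 : ℤ) * C x ^ (0 : ℤ) = 1
        rw [zpow_zero, zpow_zero, mul_one]
      · intro h
        exact absurd (Finset.mem_univ k) h
    change ((F (f k) : Subgroup.closure S) : P) = _
    rw [h1]
  · intro c h1 h2 v
    have h3 : F (c • v) = 1 := by
      simp only [F]
      refine Finset.prod_eq_one fun k _ => ?_
      have e1 : B k ^ c = 1 := Subtype.ext (by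
        change ((B k ^ c : Subgroup.closure S) : P) = 1
        rw [Subgroup.coe_zpow]
        exact h1 k)
      have e2 : C k ^ c = 1 := Subtype.ext (by
        change ((C k ^ c : Subgroup.closure S) : P) = 1
        rw [Subgroup.coe_zpow]
        exact h2 k)
      rw [Pi.smul_apply, Prod.smul_fst, Prod.smul_snd, smul_eq_mul, smul_eq_mul, zpow_mul,
        zpow_mul, e1, e2, one_zpow, one_zpow, mul_one]
    change ((F (c • v) : Subgroup.closure S) : P) = 1
    rw [h3]
    rfl

end Pool.Agent.H.MP_59b15d_al.H40X
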