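/-
The central elements of the image of the Torelli group, and the commutators.
-/
import Pool.Agent.H.MP_59b15d_al.h11c.Tree
import Pool.Agent.H.MP_59b15d_al.h40x.A0
import Pool.Agent.H.MP_59b15d_al.h40x.Be

set_option autoImplicit false

namespace Pool.Agent.H.MP_59b15d_al.H40X

open Pool.Agent.H.MP_59b15d_al.SP
open Pool.Agent.H.MP_59b15d_al.H93C
open Pool.Agent.H.MP_59b15d_al.H73X
open Pool.Agent.H.MP_59b15d_al.PC (Prim)

variable {m : ℕ} {M0 Q : Type*} [Group M0] [Group Q]
variable {q : M0 →* Q} {act : M0 →* (U m ≃ₗ[ℤ] U m)} {T : U m → Q} {s : Q} {M : ℕ}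
  {i j l : Fin m} {σ : Q}

lemma co_f_f (k : Fin m) : co (f k : V m) (f k) = 0 := by
  rw [co]
  refine Finset.sum_eq_zero fun x _ => ?_
  by_cases h : x = k
  · subst h; rw [f_self]; simp
  · rw [f_ne h]; simp

lemma co_e_left (k : Fin m) (w : V m) : co (e k : V m) w = 0 := by
  rw [co]
  refine Finset.sum_eq_zero fun x _ => ?_
  by_cases h : x = k
  · subst h; rw [e_self]; simp
  · rw [e_ne h]; simp

section

variable (D : Loc q act T s M i j l)

include D

lemma Om_e (k : Fin m) : ((e k, 0) : U m) ∈ Om act l :=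
  D.Om_of D.two ⟨f k, om_e_f k⟩ (by rw [co_e_e, add_zero]; exact dvd_zero _)

lemma Om_f (k : Fin m) : ((f k, 0) : U m) ∈ Om act l :=
  D.Om_of D.two ⟨-e k, by rw [om_neg_right, om_f_e, neg_neg]⟩
    (by rw [co_f_f, add_zero]; exact dvd_zero _)

lemma Om_ee {i' j' : Fin m} (h : i' ≠ j') : ((e i' + e j', 0) : U m) ∈ Om act l :=
  D.Om_of D.two ⟨f i', by rw [om_add_left, om_e_f, om_e_f_ne h.symm, add_zero]⟩
    (by rw [co_add_left, co_e_left, co_e_left, add_zero, add_zero]; exact dvd_zero _)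

lemma Om_over {v : V m} (hv : Prim v) : ((v, -co v v) : U m) ∈ Om act l :=
  D.Om_of D.two hv (by rw [neg_add_cancel]; exact dvd_zero _)

end

/-- **The bounding pairs modulo `σ` are the image of the lattice.** -/
theorem exists_lat (D : Loc q act T s M i j l) (E : Sg act T l σ) {P : Type*} [Group P]
    (p : Q →* P) (hp : ∀ x, p x = 1 ↔ ∃ k : ℤ, x = σ ^ k) :
    ∃ β : V m → P, (∀ v w, β (v + w) = β v * β w) ∧
      (∀ u ∈ Om act l, p (BB T u) = β u.1) ∧
      ∀ c : ℤ, (∀ u ∈ Om act l, p (BB T u) ^ c = 1) → ∀ v, β (c • v) = 1 := by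
  obtain ⟨β, b1, b2, b3, b4⟩ := exists_beta (S := {x | ∃ u ∈ Om act l, x = p (BB T u)})
    (by
      rintro _ ⟨u, hu, rfl⟩ _ ⟨x, hx, rfl⟩
      exact pB_comm D E p hp hu hx)
    (fun k => p (BB T (e k, 0))) (fun k => p (BB T (f k, 0)))
    (fun k => ⟨_, Om_e D k, rfl⟩) (fun k => ⟨_, Om_f D k, rfl⟩)
  have hcm : ∀ v w, Commute (β v) (β w) := by
    intro v w
    change β v * β w = β w * β v
    rw [← b1, ← b1, add_comm]
  have hz : ∀ (c : ℤ) (v : V m), β (c • v) = β v ^ c := by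
    intro c v
    have h0 : β 0 = 1 := by
      have h1 := b1 0 0
      rw [add_zero] at h1
      exact (mul_eq_left.1 h1.symm)
    induction c using Int.induction_on with
    | zero => rw [zero_smul, zpow_zero, h0]
    | succ c ih => rw [add_smul, one_smul, b1, ih, zpow_add_one]
    | pred c ih =>
      rw [sub_smul, one_smul]
      have h2 := b1 (-(c : ℤ) • v - v) v
      rw [sub_add_cancel, ih] at h2
      rw [zpow_sub_one, h2, mul_inv_cancel_right]
  refine ⟨β, b1, ?_, fun c hc => b4 c (fun k => hc _ (Om_e D k)) (fun k => hc _ (Om_f D k))⟩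
  -- the subgroup of the symplectic group
  obtain ⟨H, hHm⟩ : ∃ H : Subgroup (Sp m), ∀ A, A ∈ H ↔ ∀ u ∈ Om act l, ∀ u' ∈ Om act l,
      u'.1 = A u.1 → (p (BB T u) = β u.1 ↔ p (BB T u') = β u'.1) := by
    refine ⟨⟨⟨⟨{A | ∀ u ∈ Om act l, ∀ u' ∈ Om act l, u'.1 = A u.1 →
        (p (BB T u) = β u.1 ↔ p (BB T u') = β u'.1)}, ?_⟩, ?_⟩, ?_⟩, fun A => Iff.rfl⟩
    · intro A B hA hB u hu u' hu' h1
      have hpr : Prim (B u.1) := by
        obtain ⟨w, hw⟩ := D.Om_prim hu
        exact ⟨B w, by rw [sp_om, hw]⟩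
      have h2 := Om_over D hpr
      exact (hB u hu _ h2 rfl).trans (hA _ h2 u' hu' h1)
    · intro u hu u' hu' h1
      have h2 : u'.1 = u.1 := h1
      rw [pB_shift D E p hp hu hu' h2.symm, h2]
    · intro A hA u hu u' hu' h1
      refine (hA u' hu' u hu ?_).symm
      rw [h1, sp_apply_inv]
  have hT : ∀ (x : V m), (x, 0) ∈ Om act l → p (BB T (x, 0)) = β x → SP.T x 1 ∈ H := by
    intro x hx hβ
    have h1 : SP.T x (-1) ∈ H := by
      rw [hHm]
      intro u hu u' hu' h2
      have h3 : u'.1 = u.1 + om x u.1 • x := by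
        rw [h2, T_apply, om_swap u.1 x]
        congr 2
        ring
      have h4 := pB_twist D E p hp hu hx hu' h3
      have h5 : β (u.1 + om x u.1 • x) = β x ^ om x u.1 * β u.1 := by
        rw [b1, hz, ((hcm u.1 x).zpow_right _).eq]
      rw [h4, h3, h5]
      change _ ↔ p (BB T (x, 0)) ^ om x u.1 * p (BB T u) = _
      rw [hβ]
      exact ⟨fun h => by rw [h], fun h => mul_left_cancel h⟩
    have h2 := H.inv_mem h1
    rwa [T_inv, neg_neg] at h2
  have hH : H = ⊤ := by
    rw [eq_top_iff, ← humT_eq_top, HumT, Subgroup.closure_le]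
    rintro A (⟨k, hk⟩ | ⟨k, hk⟩ | ⟨i', j', hij, hk⟩)
    · rw [hk]
      exact hT (e k) (Om_e D k) (b2 k).symm
    · rw [hk]
      exact hT (f k) (Om_f D k) (b3 k).symm
    · have hne : i' ≠ j' := by
        rintro rfl
        omega
      rw [hk]
      refine hT (e i' + e j') (Om_ee D hne) ?_
      obtain ⟨c, hc⟩ := E.add i' j' hij
      rw [hc, map_mul, map_mul, p_sigma p hp, mul_one, b1, b2, b2]
  intro u hu
  obtain ⟨A, hA⟩ := PC.trans_one l (D.Om_prim hu)
  have h1 : A ∈ H := by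
    rw [hH]
    trivial
  exact ((hHm A).1 h1 _ (Om_e D l) u hu hA.symm).1 (b2 l).symm

/-- **(delta)** An element of the image of the Torelli group which is central is a power of `σ`. -/
theorem central_sigma (D : Loc q act T s M i j l) (E : Sg act T l σ) (hs : s = 1) {g : M0}
    (hg : ∀ x : U m, (act g x).1 = x.1) (hc : ∀ y : Q, Commute (q g) y) :
    ∃ k : ℤ, q g = σ ^ k := by
  have hn : (Subgroup.zpowers σ).Normal := zn E
  obtain ⟨p, hp⟩ : ∃ p : Q →* Q ⧸ Subgroup.zpowers σ, ∀ x, p x = 1 ↔ ∃ k : ℤ, x = σ ^ k := by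
    refine ⟨QuotientGroup.mk' _, fun x => ?_⟩
    change ((x : Q ⧸ Subgroup.zpowers σ) = 1) ↔ _
    rw [QuotientGroup.eq_one_iff]
    exact ⟨fun ⟨k, hk⟩ => ⟨k, hk.symm⟩, fun ⟨k, hk⟩ => ⟨k, hk.symm⟩⟩
  obtain ⟨β, b1, b2, b3⟩ := exists_lat D E p hp
  have b0 : β 0 = 1 := by
    have h1 := b1 0 0
    rw [add_zero] at h1
    exact (mul_eq_left.1 h1.symm)
  have hOm : ∀ {u : U m}, u ∈ Om act l → ∀ k : ℤ, u + (0, 2 * k) ∈ Om act l :=
    fun hu k => D.Om_add_even D.two hu k
  -- the class of an element of the image of the Torelli group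
  obtain ⟨v, hv1, hv2⟩ : ∃ v : V m, p (q g) = β v ∧
      ∀ u ∈ Om act l, q g * T u * (q g)⁻¹ = T (u + (0, 2 * om v u.1)) := by
    refine Subgroup.closure_induction (p := fun t _ => ∃ v : V m, p t = β v ∧
      ∀ u ∈ Om act l, t * T u * t⁻¹ = T (u + (0, 2 * om v u.1))) ?_ ?_ ?_ ?_ (D.gen g hg)
    · rintro t (⟨x, hx, rfl⟩ | ht)
      · refine ⟨x.1, b2 x hx, fun u hu => ?_⟩
        obtain ⟨k, k1, k2⟩ := D.BB_act D.two hx
        rw [← k1, D.eqv k u hu, k2]
      · rw [Set.mem_singleton_iff] at ht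
        refine ⟨0, by rw [ht, hs, map_one, b0], fun u _ => ?_⟩
        rw [ht, hs, one_mul, inv_one, mul_one, om_zero_left, mul_zero, add_z0]
    · refine ⟨0, by rw [map_one, b0], fun u _ => ?_⟩
      rw [one_mul, inv_one, mul_one, om_zero_left, mul_zero, add_z0]
    · rintro t t' _ _ ⟨v, v1, v2⟩ ⟨v', v1', v2'⟩
      refine ⟨v + v', by rw [map_mul, b1, v1, v1'], fun u hu => ?_⟩
      have h1 : t * t' * T u * (t * t')⁻¹ = t * (t' * T u * t'⁻¹) * t⁻¹ := by group
      rw [h1, v2' u hu, v2 _ (hOm hu _), add_fst, add_zw, om_add_left]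
      congr 3
      ring
    · rintro t _ ⟨v, v1, v2⟩
      refine ⟨-v, ?_, fun u hu => ?_⟩
      · have h1 := b1 v (-v)
        rw [add_neg_cancel, b0] at h1
        rw [map_inv, v1]
        exact inv_eq_of_mul_eq_one_right h1.symm
      · have h1 := v2 _ (hOm hu (om (-v) u.1))
        rw [add_fst, add_zw, om_neg_left] at h1
        have h2 : 2 * -om v u.1 + 2 * om v u.1 = 0 := by ring
        rw [h2, add_z0] at h1
        rw [om_neg_left, ← h1]
        group
  -- the exponents which kill the bounding pairs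
  have h1 : ∀ u ∈ Om act l, p (BB T u) ^ om v u.1 = 1 := by
    intro u hu
    have h2 := hv2 u hu
    have h3 : q g * T u * (q g)⁻¹ = T u := by
      rw [(hc (T u)).eq, mul_inv_cancel_right]
    rw [h3] at h2
    have h4 := congrArg p h2
    rw [pT_shift D E p hp hu] at h4
    exact (mul_eq_right.1 h4.symm)
  have h2 : ∀ u ∈ Om act l, ∀ u' ∈ Om act l, ∀ c : ℤ, p (BB T u) ^ c = 1 →
      p (BB T u') ^ c = 1 := by
    rintro _ ⟨a, rfl⟩ _ ⟨b, rfl⟩ c hc'
    have h3 : ∀ k : M0, p (BB T (act k (e l, 0))) = p (q k) * p (BB T (e l, 0)) * (p (q k))⁻¹ := by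
      intro k
      have h5 := D.eqv k _ (Om_base act l)
      have h6 := D.eqv k _ (D.Om_add_two D.two (Om_base act l))
      rw [D.act_add] at h6
      rw [BB, BB, ← h5, ← h6]
      simp only [map_mul, map_inv]
      group
    rw [h3, conj_zpow] at hc' ⊢
    have h4 : p (BB T (e l, 0)) ^ c = 1 := by
      have := conj_eq_one_iff.1 hc'
      exact this
    rw [h4, mul_one, mul_inv_cancel]
  obtain ⟨J, hJ⟩ : ∃ J : AddSubgroup ℤ, ∀ c, c ∈ J ↔ ∀ u ∈ Om act l, p (BB T u) ^ c = 1 := by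
    refine ⟨⟨⟨⟨{c | ∀ u ∈ Om act l, p (BB T u) ^ c = 1}, ?_⟩, ?_⟩, ?_⟩, fun c => Iff.rfl⟩
    · intro a b ha hb u hu
      rw [zpow_add, ha u hu, hb u hu, mul_one]
    · intro u _
      exact zpow_zero _
    · intro a ha u hu
      rw [zpow_neg, ha u hu, inv_one]
  obtain ⟨c, hJc⟩ := Int.subgroup_cyclic J
  have h3 : ∀ u ∈ Om act l, c ∣ om v u.1 := by
    intro u hu
    have h4 : om v u.1 ∈ J := (hJ _).2 fun u' hu' => h2 u hu u' hu' _ (h1 u hu)
    rw [hJc, AddSubgroup.mem_closure_singleton] at h4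
    obtain ⟨k, hk⟩ := h4
    exact ⟨k, by rw [← hk, smul_eq_mul, mul_comm]⟩
  have h4 : ∃ w : V m, v = c • w := by
    have e1 : ∀ k, c ∣ (v k).1 := fun k => by
      have := h3 _ (Om_f D k)
      rwa [om_f] at this
    have e2 : ∀ k, c ∣ (v k).2 := fun k => by
      have := h3 _ (Om_e D k)
      rw [om_e] at this
      exact (dvd_neg).1 this
    choose x hx using e1
    choose y hy using e2
    exact ⟨fun k => (x k, y k), funext fun k => Prod.ext (hx k) (hy k)⟩
  obtain ⟨w, rfl⟩ := h4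
  have h5 : c ∈ J := by
    rw [hJc]
    exact AddSubgroup.subset_closure rfl
  exact (hp _).1 (hv1.trans (b3 c ((hJ c).1 h5) w))

/-- **The commutators.** -/
theorem comm_sigma (D : Loc q act T s M i j l) (E : Sg act T l σ) {g g' : M0} {v v' : V m}
    (hg : ∀ x : U m, act g x = x + (0, 2 * om v x.1))
    (hg' : ∀ x : U m, act g' x = x + (0, 2 * om v' x.1)) :
    q (g * g' * g⁻¹ * g'⁻¹) = σ ^ om v v' := by
  let A : AddSubgroup (V m) :=
    { carrier := {w | ∃ k : M0, (∀ x : U m, act k x = x + (0, 2 * om w x.1)) ∧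
        ∀ (g : M0) (v : V m), (∀ x : U m, act g x = x + (0, 2 * om v x.1)) →
          q g * q k * (q g)⁻¹ = q k * σ ^ om v w}
      zero_mem' := by
        refine ⟨1, fun x => ?_, fun g v _ => ?_⟩
        · rw [act_one, om_zero_left, mul_zero]
          exact (add_zero x).symm
        · rw [map_one, om_zero_right, zpow_zero, mul_one, mul_inv_cancel, mul_one]
      add_mem' := by
        rintro w w' ⟨k, k1, k2⟩ ⟨k', k1', k2'⟩
        refine ⟨k * k', fun x => ?_, fun g v hg => ?_⟩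
        · rw [act_mul, k1', k1, add_fst, add_zw, om_add_left]
          congr 2
          ring
        · have h1 : q g * q (k * k') * (q g)⁻¹ = (q g * q k * (q g)⁻¹) * (q g * q k' * (q g)⁻¹) := by
            rw [map_mul]
            group
          rw [h1, k2 g v hg, k2' g v hg, map_mul, om_add_right, zpow_add]
          have h2 := ((E.cen (q k')).zpow_left (om v w)).eq
          calc q k * σ ^ om v w * (q k' * σ ^ om v w') = q k * (σ ^ om v w * q k') *
              σ ^ om v w' := by group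
            _ = _ := by rw [h2]; group
      neg_mem' := by
        rintro w ⟨k, k1, k2⟩
        refine ⟨k⁻¹, fun x => ?_, fun g v hg => ?_⟩
        · have h1 := k1 (x + (0, 2 * om (-w) x.1))
          rw [add_fst, add_zw, om_neg_left] at h1
          have h2 : 2 * -om w x.1 + 2 * om w x.1 = 0 := by ring
          rw [h2, add_z0] at h1
          rw [om_neg_left]
          nth_rewrite 1 [← h1]
          rw [act_inv_apply]
        · have h1 : q g * q k⁻¹ * (q g)⁻¹ = (q g * q k * (q g)⁻¹)⁻¹ := by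
            rw [map_inv]
            group
          have h2 := ((E.cen (q k)).zpow_left (om v w)).inv_left.inv_right.eq
          rw [h1, k2 g v hg, mul_inv_rev, map_inv, om_neg_right, zpow_neg, h2] }
  have hA : v' ∈ A := by
    have key : ∀ v : V m, Prim v → v ∈ A := by
      intro w hw
      have h1 := Om_over D hw
      obtain ⟨k, k1, k2⟩ := D.BB_act D.two h1
      refine ⟨k, k2, fun g v hg => ?_⟩
      rw [k1]
      exact BB_conj D E hg h1
    rw [expand v']
    refine AddSubgroup.sum_mem _ fun k _ => AddSubgroup.add_mem _ ?_ ?_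
    · exact AddSubgroup.zsmul_mem _ (key _ ⟨f k, om_e_f k⟩) _
    · exact AddSubgroup.zsmul_mem _ (key _ ⟨-e k, by rw [om_neg_right, om_f_e, neg_neg]⟩) _
  obtain ⟨k, k1, k2⟩ := hA
  have h1 : ∀ y, Commute (q (g' * k⁻¹)) y := by
    refine D.cen _ fun x => ⟨0, ?_⟩
    rw [smul_zero, add_zero, act_mul, hg']
    have h2 := k1 (act k⁻¹ x)
    rw [act_apply_inv] at h2
    have h3 : (act k⁻¹ x).1 = x.1 := by
      have := congrArg Prod.fst h2
      rw [add_fst] at this
      exact this.symm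
    rw [h3] at h2 ⊢
    exact h2.symm
  have h2 := k2 g v hg
  have h3 := (h1 (q g)).eq
  have h4 : q g' = q (g' * k⁻¹) * q k := by
    rw [map_mul, map_inv, inv_mul_cancel_right]
  have h5 : q g * q g' * (q g)⁻¹ = q (g' * k⁻¹) * (q g * q k * (q g)⁻¹) := by
    rw [h4]
    have h6 : q g * (q (g' * k⁻¹) * q k) = q (g' * k⁻¹) * (q g * q k) := by
      rw [← mul_assoc, ← h3, mul_assoc]
    rw [h6]
    group
  rw [map_mul, map_mul, map_mul, map_inv, map_inv, h5, h2, ← mul_assoc, ← h4,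
    ← ((E.cen (q g')).zpow_left (om v v')).eq, mul_inv_cancel_right]

end Pool.Agent.H.MP_59b15d_al.H40X
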