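/-
From the local data to the congruence subgroup property.
-/
import Pool.Agent.H.MP_59b15d_al.h40x.A1
import Pool.Agent.H.MP_59b15d_al.h40th.Asm
import Pool.Agent.H.MP_59b15d_al.h73x.Lo
import Pool.Agent.H.MP_59b15d_al.h73x.Wd

set_option autoImplicit false

namespace Pool.Agent.H.MP_59b15d_al.H40X

open Pool.Agent.H.MP_59b15d_al.SP
open Pool.Agent.H.MP_59b15d_al.H93C
open Pool.Agent.H.MP_59b15d_al.H73X
open Pool.Agent.H.MP_59b15d_al.PC (Prim AdjA)
open Pool.MP_59b15d_al.H24T Pool.MP_59b15d_al.H76R Pool.MP_59b15d_al.H73E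
open Pool.MP_59b15d_al.H76 (InnMod)

section

variable {m : ℕ} {M0 Q : Type*} [Group M0] [Group Q]
variable {q : M0 →* Q} {act : M0 →* (U m ≃ₗ[ℤ] U m)} {T : U m → Q} {s : Q} {M : ℕ}
  {i j l : Fin m}

theorem Sg_of (D : Loc q act T s M i j l) (hqs : Function.Surjective q) :
    Sg act T l (sg T l) := by
  refine ⟨fun y => ?_, fun u hu => ?_, fun i' j' hij => ⟨0, ?_⟩⟩
  · obtain ⟨g, rfl⟩ := hqs y
    exact (D.sg_comm g).symm
  · have h1 := D.sg_eq hu
    have h2 := D.sg_B hu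
    change B T (u + (0, 2)) = B T u * sg T l
    rw [h2.eq, ← h1, inv_mul_cancel_right]
  · have hne : i' ≠ j' := by
      rintro rfl
      omega
    have pe : ∀ k : Fin m, Par ((e k, 0) : U m) := by
      intro k
      unfold Par
      change (2 : ℤ) ∣ 0 + co (e k) (e k)
      rw [co_e_e, add_zero]
      exact dvd_zero _
    have hA : AdjA ((e i', 0) : U m).1 ((e j', 0) : U m).1 :=
      ⟨om_e_e _ _, ⟨f i', om_e_f i', om_e_f_ne hne.symm⟩, f j', om_e_f_ne hne, om_e_f j'⟩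
    have h1 := D.B_add hA (pe i') (pe j')
    rw [zpow_zero, mul_one]
    have h2 : ((e i' + e j', 0) : U m) = (e i', 0) + (e j', 0) := by
      apply Prod.ext
      · rfl
      · change (0 : ℤ) = 0 + 0
        rfl
    rw [h2]
    exact h1

end

variable {n : ℕ} {G : Type*} [Group G] {a b : Fin (n + 1) → G}

/-- **The end.** -/
theorem end_loc (h : IsSurf a b) (hn : 4 ≤ n) (hn1 : 1 ≤ n) (N : Subgroup (MulAut G))
    (hN : ∀ φ ∈ MMs h, ∀ x ∈ N, φ * x * φ⁻¹ ∈ N) (hI : ∀ x : G, MulAut.conj x ∈ N)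
    (hf : N.relIndex (MMs h) ≠ 0) {Q : Type*} [Group Q] (q : MMs h →* Q)
    (hqs : Function.Surjective q) (hq : ∀ x : MMs h, q x = 1 ↔ (x : MulAut G) ∈ N)
    {T : U (n + 1) → Q} {s : Q} {M : ℕ} {i j l : Fin (n + 1)}
    (D : Loc q (H73X.act h hn1) T s M i j l) (h3 : sg T l ^ 3 = 1) :
    ∃ Γ : Subgroup G, Γ.Characteristic ∧ Γ.FiniteIndex ∧
      ∀ φ ∈ MMs h, InnMod Γ φ → φ ∈ N := by
  have E := Sg_of D hqs
  refine H40T.end_sigma h hn N hN hI hf q hq (sg T l) (fun x => E.cen _) h3 ?_ M D.hM ?_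
  · intro φ ψ u v hu hv
    exact comm_sigma D E (act_TL h hn1 φ hu) (act_TL h hn1 ψ hv)
  · intro φ u hu
    have h1 := act_TL h hn1 φ hu
    refine central_sigma D E D.s_one (fun x => ?_) (D.cen φ fun x => ⟨(0, 2 * om u x.1), ?_⟩)
    · rw [h1]
      exact add_fst x _
    · rw [h1, om_smul_left]
      congr 1
      apply Prod.ext
      · change (0 : V (n + 1)) = (M : ℤ) • (0 : V (n + 1))
        rw [smul_zero]
      · change 2 * ((M : ℤ) * om u x.1) = (M : ℤ) • (2 * om u x.1)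
        rw [smul_eq_mul]
        ring

end Pool.Agent.H.MP_59b15d_al.H40X
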