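/-
Subgroups of finite index of the mapping class group modulo which the pushes factor through the
Heisenberg group are congruence subgroups.
-/
import Pool.Agent.H.MP_59b15d_al.h40x.Fin
import Pool.Agent.H.MP_59b15d_al.h73x.Mk
import Pool.Agent.H.MP_59b15d_al.h11r.Sg
import Pool.Agent.H.MP_59b15d_al.h93c.Final

set_option autoImplicit false

namespace Pool.Agent.H.MP_59b15d_al.H40X

open Pool.Agent.H.MP_59b15d_al.SP
open Pool.Agent.H.MP_59b15d_al.H93C
open Pool.Agent.H.MP_59b15d_al.H73X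
open Pool.MP_59b15d_al.H24T Pool.MP_59b15d_al.H76R Pool.MP_59b15d_al.H73E
open Pool.MP_59b15d_al.H60G Pool.MP_59b15d_al.H95G
open Pool.MP_59b15d_al.H76 (InnMod)

variable {n : ℕ} {G : Type*} [Group G] {a b : Fin (n + 1) → G}

/-- **The congruence theorem.** -/
theorem end_congr (h : IsSurf a b) (hn : 4 ≤ n) (N : Subgroup (MulAut G))
    (hN : ∀ φ ∈ MMs h, ∀ x ∈ N, φ * x * φ⁻¹ ∈ N) (hI : ∀ x : G, MulAut.conj x ∈ N)
    (hf : N.relIndex (MMs h) ≠ 0) (hR : Rels h N) :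
    ∃ Γ : Subgroup G, Γ.Characteristic ∧ Γ.FiniteIndex ∧
      ∀ φ ∈ MMs h, InnMod Γ φ → φ ∈ N := by
  have hn1 : 1 ≤ n := by omega
  have hnm : (N.subgroupOf (MMs h)).Normal := ⟨fun x hx g => by
    rw [Subgroup.mem_subgroupOf] at hx ⊢
    exact hN g g.2 x hx⟩
  have hfi : (N.subgroupOf (MMs h)).FiniteIndex := ⟨hf⟩
  have hfin : Finite (MMs h ⧸ N.subgroupOf (MMs h)) := Subgroup.finite_quotient_of_finiteIndex
  let q : MMs h →* MMs h ⧸ N.subgroupOf (MMs h) := QuotientGroup.mk' _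
  have hqs : Function.Surjective q := QuotientGroup.mk'_surjective _
  have hq : ∀ x : MMs h, q x = 1 ↔ x.1 ∈ N := fun x => by
    change ((x : MMs h ⧸ N.subgroupOf (MMs h))) = 1 ↔ _
    rw [QuotientGroup.eq_one_iff, Subgroup.mem_subgroupOf]
  obtain ⟨T, s, M, i, j, l, D⟩ := exists_Loc h hn N hN hI hf hR q hqs hq
  exact end_loc h hn hn1 N hN hI hf q hqs hq D (R1.sg_cube D)

/-- **The growth theorem**: a subgroup of index smaller than `2 ^ binom(g, 3)`, `g = n + 1 ≥ 5`,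
normalised by the mapping class group and containing the inner automorphisms, contains a
congruence subgroup. -/
theorem theoremB (h : IsSurf a b) (hn : 4 ≤ n) (N : Subgroup (MulAut G))
    (hN : ∀ φ ∈ MMs h, ∀ x ∈ N, φ * x * φ⁻¹ ∈ N) (hI : ∀ x : G, MulAut.conj x ∈ N)
    (hf : N.relIndex (MMs h) ≠ 0) (hlt : N.relIndex (MMs h) < 2 ^ (n + 1).choose 3) :
    ∃ Γ : Subgroup G, Γ.Characteristic ∧ Γ.FiniteIndex ∧
      ∀ φ ∈ MMs h, InnMod Γ φ → φ ∈ N := by
  obtain ⟨h1, h2, h3⟩ := growth' h N hN (by omega) hf hlt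
  exact end_congr h hn N hN hI hf ⟨h1, h2, h3⟩

end Pool.Agent.H.MP_59b15d_al.H40X
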